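import Pool.Agent.H601Z.NetMain

set_option autoImplicit false

namespace Pool.Agent.Results.MP_f4bed7_co.ANetCollapse

open Pool.Agent.H601Z.Net

/-- Q1, negated form: for every `ε > 0` there are `k ≥ 1`, a connected infinite graph `G` of
maximal degree at most `9` with `h(G) > 1` and a `k`-net graph of `G` with Cheeger constant
below `ε`. -/
theorem result : ∀ ε : ℝ, 0 < ε →
    ∃ k : ℕ, 1 ≤ k ∧ ∃ (V : Type) (G : SimpleGraph V) (S : Set V),
      Infinite V ∧ G.Connected ∧ (∀ v, (G.neighborSet v).encard ≤ 9) ∧ 1 < cheeger G ∧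
      IsNet G k S ∧ cheeger (netGraph G k S) < ENNReal.ofReal ε :=
  fun ε hε => main ε hε

end Pool.Agent.Results.MP_f4bed7_co.ANetCollapse
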